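import Mathlib
import Pool.Agent.Y99.ZS.AllGroups

/-!
# The optimal constant in Olson's bound, in all abelian groups

The starting theorem `OlsonConstant` proves `f(m) ≥ ⌈c m²⌉` for all large `m` for every `c < 1/2`.
Here the endpoint `c = 1/2` is included, it is shown to be the largest possible constant, the exact
value of `f(m)` is determined for all large `m`, and the lower bound is proved for all abelian groups,
infinite ones included.
-/

set_option autoImplicit false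

namespace Pool.Agent.Results.MP_516cd6_nt.ExactAllGroups

universe u

/-- The set of sums of the nonempty subsets of `A` (each element used at most once). -/
def SigmaStar {G : Type u} [AddCommGroup G] (A : Finset G) : Set G :=
  {s | ∃ B : Finset G, B ⊆ A ∧ B.Nonempty ∧ ∑ b ∈ B, b = s}

/-- `A` is weakly zero-sum-free: no nonempty subset of `A` sums to zero. -/
def WeaklyZeroSumFree {G : Type u} [AddCommGroup G] (A : Finset G) : Prop :=
  (0 : G) ∉ SigmaStar A

/-- The set of all values taken by the number of nonempty subset sums of `A`, as `A` runs over the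
weakly zero-sum-free `m`-element subsets of all finite abelian groups. -/
def values (m : ℕ) : Set ℕ :=
  {n | ∃ (G : Type) (_ : AddCommGroup G) (_ : Finite G) (A : Finset G),
    A.card = m ∧ WeaklyZeroSumFree A ∧ (SigmaStar A).ncard = n}

/-- `f(m)`: the minimum of the number of nonempty subset sums. -/
noncomputable def f (m : ℕ) : ℕ := sInf (values m)

theorem SigmaStar_map {G : Type} {H : Type u} [AddCommGroup G] [AddCommGroup H] (e : G ≃+ H)
    (A : Finset G) : SigmaStar (A.map e.toEquiv.toEmbedding) = e '' SigmaStar A := by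
  classical
  ext s
  constructor
  · rintro ⟨B, hB, hne, rfl⟩
    obtain ⟨C, hC, rfl⟩ := Finset.subset_map_iff.1 hB
    refine ⟨∑ c ∈ C, c, ⟨C, hC, ?_, rfl⟩, ?_⟩
    · simpa using hne
    · rw [map_sum, Finset.sum_map]
      rfl
  · rintro ⟨t, ⟨C, hC, hne, rfl⟩, rfl⟩
    refine ⟨C.map e.toEquiv.toEmbedding, Finset.map_subset_map.2 hC, ?_, ?_⟩
    · simpa using hne
    · rw [map_sum, Finset.sum_map]
      rfl

theorem exists_value_le (m : ℕ) : ∃ n ∈ values m, n ≤ m ^ 2 / 2 + 1 := by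
  classical
  obtain ⟨A, hA, hA2, hA3⟩ := Pool.Agent.Helper398.example_upper m
  have h0 : (0 : ZMod (m ^ 2 + 1) × ZMod 2) ∉ SigmaStar A := by
    rintro ⟨B, hB, hne, hs⟩
    exact hA2 B hB hne hs
  have h1 := Pool.Agent.Helper398.ncard_bridge A (SigmaStar A) (fun s => Iff.rfl) h0
  exact ⟨(SigmaStar A).ncard, ⟨ZMod (m ^ 2 + 1) × ZMod 2, inferInstance, inferInstance, A, hA, h0,
    rfl⟩, by omega⟩

theorem exists_exact : ∃ M : ℕ, ∀ m : ℕ, M ≤ m → f m = m ^ 2 / 2 + 1 := by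
  obtain ⟨M, hM⟩ := Pool.Agent.Y99.ZS.exact_ncard.{0}
  refine ⟨M, fun m hm => ?_⟩
  have hlow : ∀ n ∈ values m, m ^ 2 / 2 + 1 ≤ n := by
    rintro n ⟨G, _, _, A, hA, hZ, rfl⟩
    have h1 := hM G A (SigmaStar A) (fun s => Iff.rfl) hZ (by omega)
    rwa [hA] at h1
  obtain ⟨n, hn, hn2⟩ := exists_value_le m
  have h1 : n = m ^ 2 / 2 + 1 := le_antisymm hn2 (hlow n hn)
  rw [h1] at hn
  exact le_antisymm (Nat.sInf_le hn) (le_csInf ⟨_, hn⟩ hlow)

/-- **The optimal constant is `1/2`, in all abelian groups.** For a real number `c` the following are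
equivalent: (a) `f(m) ≥ ⌈c m²⌉` for all but finitely many `m`; (b) all weakly zero-sum-free sets `A`
of large cardinality in all abelian groups, finite or infinite, have at least `c |A|²` nonempty
subset sums; (c) `c ≤ 1/2`. Moreover `f(m) = ⌊m²/2⌋ + 1` for all large `m`. -/
theorem result :
    (∀ c : ℝ, ((∀ᶠ m : ℕ in Filter.atTop, ⌈c * (m : ℝ) ^ 2⌉ ≤ (f m : ℤ)) ↔ c ≤ 1 / 2) ∧
      ((∃ M : ℕ, ∀ (G : Type u) [AddCommGroup G] (A : Finset G), WeaklyZeroSumFree A →
        M ≤ A.card → c * (A.card : ℝ) ^ 2 ≤ ((SigmaStar A).ncard : ℝ)) ↔ c ≤ 1 / 2)) ∧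
    ∃ M : ℕ, ∀ m : ℕ, M ≤ m → f m = m ^ 2 / 2 + 1 := by
  obtain ⟨M, hM⟩ := exists_exact
  have hdiv : ∀ m : ℕ, (m : ℝ) ^ 2 / 2 ≤ ((m ^ 2 / 2 + 1 : ℕ) : ℝ) := by
    intro m
    have h1 : m ^ 2 ≤ 2 * (m ^ 2 / 2 + 1) := by omega
    have h2 : ((m ^ 2 : ℕ) : ℝ) ≤ ((2 * (m ^ 2 / 2 + 1) : ℕ) : ℝ) := by exact_mod_cast h1
    push_cast at h2 ⊢
    linarith
  have hdiv' : ∀ m : ℕ, ((m ^ 2 / 2 + 1 : ℕ) : ℝ) ≤ (m : ℝ) ^ 2 / 2 + 1 := by
    intro m
    have h1 : 2 * (m ^ 2 / 2) ≤ m ^ 2 := by omega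
    have h2 : ((2 * (m ^ 2 / 2) : ℕ) : ℝ) ≤ ((m ^ 2 : ℕ) : ℝ) := by exact_mod_cast h1
    push_cast at h2 ⊢
    linarith
  -- a constant larger than one half is impossible
  have hup : ∀ c : ℝ, (∃ M' : ℕ, ∀ m : ℕ, M' ≤ m → c * (m : ℝ) ^ 2 ≤ (m : ℝ) ^ 2 / 2 + 1) →
      c ≤ 1 / 2 := by
    rintro c ⟨M', h⟩
    by_contra hc
    push Not at hc
    obtain ⟨N, hN⟩ := exists_nat_gt (1 / (c - 1 / 2))
    have h1 := h (max M' (N + 1)) (le_max_left _ _)
    obtain ⟨m, hm⟩ : ∃ m, m = max M' (N + 1) := ⟨_, rfl⟩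
    rw [← hm] at h1
    have h2 : ((N : ℝ) + 1) ≤ m := by
      have : N + 1 ≤ m := by rw [hm]; exact le_max_right _ _
      exact_mod_cast this
    have h3 : 0 < c - 1 / 2 := by linarith
    rw [div_lt_iff₀ h3] at hN
    have hN0 : (0 : ℝ) ≤ N := Nat.cast_nonneg _
    have h4 : (N : ℝ) ≤ (m : ℝ) ^ 2 := by nlinarith
    nlinarith
  refine ⟨fun c => ⟨⟨fun h => ?_, fun h => ?_⟩, ⟨?_, fun h => ?_⟩⟩, M, hM⟩
  · rw [Filter.eventually_atTop] at h
    obtain ⟨M', hM'⟩ := h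
    refine hup c ⟨max M M', fun m hm => ?_⟩
    have h1 := hM' m ((le_max_right _ _).trans hm)
    rw [Int.ceil_le, hM m ((le_max_left _ _).trans hm)] at h1
    refine h1.trans ?_
    exact_mod_cast hdiv' m
  · rw [Filter.eventually_atTop]
    refine ⟨M, fun m hm => ?_⟩
    rw [Int.ceil_le, hM m hm]
    have h1 : c * (m : ℝ) ^ 2 ≤ (m : ℝ) ^ 2 / 2 := by
      have : 0 ≤ (m : ℝ) ^ 2 := by positivity
      nlinarith
    refine h1.trans ?_
    exact_mod_cast hdiv m
  · rintro ⟨M', h⟩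
    refine hup c ⟨M', fun m hm => ?_⟩
    classical
    -- the example, transported to the universe of the statement
    obtain ⟨A, hA, hA2, hA3⟩ := Pool.Agent.Helper398.example_upper m
    let e : (ZMod (m ^ 2 + 1) × ZMod 2) ≃+ ULift.{u} (ZMod (m ^ 2 + 1) × ZMod 2) :=
      AddEquiv.ulift.symm
    have hsub : (A.map e.toEquiv.toEmbedding).card = m := by
      rw [Finset.card_map, hA]
    have hZ : WeaklyZeroSumFree (A.map e.toEquiv.toEmbedding) := by
      intro h0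
      rw [SigmaStar_map] at h0
      obtain ⟨t, ht, ht0⟩ := h0
      rw [map_eq_zero_iff e e.injective] at ht0
      rw [ht0] at ht
      obtain ⟨B, hB, hne, hs⟩ := ht
      exact hA2 B hB hne hs
    have h1 := h _ _ hZ (by rw [hsub]; exact hm)
    rw [hsub] at h1
    refine h1.trans ?_
    have h2 := (Pool.Agent.Y99.ZS.ncard_all A (SigmaStar A) (fun s => Iff.rfl) (by
      rintro ⟨B, hB, hne, hs⟩
      exact hA2 B hB hne hs)).2
    have h3 : (SigmaStar (A.map e.toEquiv.toEmbedding)).ncard = (SigmaStar A).ncard := by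
      rw [SigmaStar_map, Set.ncard_image_of_injective _ e.injective]
    rw [h3]
    have h5 : (SigmaStar A).ncard ≤ m ^ 2 / 2 + 1 := by omega
    have h6 : ((SigmaStar A).ncard : ℝ) ≤ ((m ^ 2 / 2 + 1 : ℕ) : ℝ) := by exact_mod_cast h5
    exact h6.trans (hdiv' m)
  · obtain ⟨M', hM'⟩ := Pool.Agent.Y99.ZS.exact_ncard.{u}
    refine ⟨M', fun G _ A hZ hA => ?_⟩
    have h1 := hM' G A (SigmaStar A) (fun s => Iff.rfl) hZ hA
    have h2 : ((A.card ^ 2 / 2 + 1 : ℕ) : ℝ) ≤ ((SigmaStar A).ncard : ℝ) := by exact_mod_cast h1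
    have h3 : c * (A.card : ℝ) ^ 2 ≤ (A.card : ℝ) ^ 2 / 2 := by
      have : 0 ≤ (A.card : ℝ) ^ 2 := by positivity
      nlinarith
    exact h3.trans ((hdiv _).trans h2)

end Pool.Agent.Results.MP_516cd6_nt.ExactAllGroups
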